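import Mathlib
import Pool.Agent.Y862.SQ.Stm

/-!
# SQ-F1: second moment of the singular factor over the small primes
-/

set_option autoImplicit false

namespace Pool.Agent.Y286.SQ

open Finset Pool.Agent.Y862.SQ

theorem leg_eq (h p : ℕ) [Fact p.Prime] :
    leg h p = quadraticChar (ZMod p) (-(h : ZMod p)) := by
  unfold leg
  rw [← jacobiSym.legendreSym.to_jacobiSym, legendreSym]
  push_cast
  rfl

theorem sum_range_zmod (p : ℕ) [NeZero p] (f : ZMod p → ℤ) :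
    ∑ n ∈ range p, f n = ∑ x : ZMod p, f x := by
  refine sum_nbij' (fun n => (n : ZMod p)) (fun x => x.val) ?_ ?_ ?_ ?_ ?_
  · intro n _; exact mem_univ _
  · intro x _; exact mem_range.mpr (ZMod.val_lt x)
  · intro n hn; exact ZMod.val_cast_of_lt (mem_range.mp hn)
  · intro x _; exact ZMod.natCast_zmod_val x
  · intro n _; rfl

theorem sum_leg (p : ℕ) [hp : Fact p.Prime] (h2 : p ≠ 2) : ∑ n ∈ range p, leg n p = 0 := by
  have h1 : ∑ n ∈ range p, leg n p =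
      ∑ n ∈ range p, (fun x : ZMod p => quadraticChar (ZMod p) (-x)) n :=
    sum_congr rfl fun n _ => leg_eq n p
  have h4 : ∑ x : ZMod p, quadraticChar (ZMod p) (-x) = ∑ x : ZMod p, quadraticChar (ZMod p) x :=
    Equiv.sum_comp (Equiv.neg (ZMod p)) (fun x => quadraticChar (ZMod p) x)
  rw [h1, sum_range_zmod p (fun x : ZMod p => quadraticChar (ZMod p) (-x)), h4]
  exact quadraticChar_sum_zero (by rw [ZMod.ringChar_zmod_n]; exact h2)

theorem sum_leg_sq (p : ℕ) [hp : Fact p.Prime] : ∑ n ∈ range p, leg n p ^ 2 = (p : ℤ) - 1 := by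
  have h1 : ∑ n ∈ range p, leg n p ^ 2 =
      ∑ n ∈ range p, (fun x : ZMod p => quadraticChar (ZMod p) (-x) ^ 2) n :=
    sum_congr rfl fun n _ => by rw [leg_eq n p]
  have h4 : ∑ x : ZMod p, quadraticChar (ZMod p) (-x) ^ 2 =
      ∑ x : ZMod p, quadraticChar (ZMod p) x ^ 2 :=
    Equiv.sum_comp (Equiv.neg (ZMod p)) (fun x => quadraticChar (ZMod p) x ^ 2)
  rw [h1, sum_range_zmod p (fun x : ZMod p => quadraticChar (ZMod p) (-x) ^ 2), h4,
    ← add_sum_erase univ _ (mem_univ (0 : ZMod p))]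
  have h3 : ∀ x ∈ univ.erase (0 : ZMod p), quadraticChar (ZMod p) x ^ 2 = 1 := by
    intro x hx
    exact quadraticChar_sq_one (ne_of_mem_erase hx)
  rw [sum_congr rfl h3, sum_const, card_erase_of_mem (mem_univ _), card_univ, ZMod.card,
    MulChar.map_zero]
  have := hp.out.one_lt
  rw [nsmul_eq_mul, Nat.cast_sub this.le]
  simp

theorem leg_abs (n p : ℕ) [Fact p.Prime] : |(leg n p : ℝ)| ≤ 1 := by
  have h : |leg n p| ≤ 1 := by
    rw [leg_eq]
    by_cases hx : (-(n : ZMod p)) = 0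
    · rw [hx, MulChar.map_zero]; norm_num
    · rcases quadraticChar_dichotomy hx with h | h <;> rw [h] <;> norm_num
  exact_mod_cast h

theorem leg_add (n p : ℕ) : leg (n + p) p = leg n p := by
  unfold leg
  rw [jacobiSym.mod_left, jacobiSym.mod_left (-(n : ℤ))]
  congr 1
  push_cast
  rw [show -((n : ℤ) + p) = -(n : ℤ) + p * (-1) by ring, Int.add_mul_emod_self_left]

theorem tele (w : ℕ) (hw : 1 ≤ w) (P : Finset ℕ) (hP : ∀ p ∈ P, w < p) :
    ∑ p ∈ P, 1 / ((p : ℝ) * (p - 1)) ≤ 1 / w := by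
  obtain ⟨N, hN⟩ : ∃ N, ∀ p ∈ P, p ≤ N := ⟨P.sup id, fun p hp => le_sup (f := id) hp⟩
  have h1 : ∑ p ∈ P, 1 / ((p : ℝ) * (p - 1)) ≤ ∑ p ∈ Ioc w (w + N), 1 / ((p : ℝ) * (p - 1)) := by
    refine sum_le_sum_of_subset_of_nonneg ?_ ?_
    · intro p hp
      rw [mem_Ioc]
      have := hN p hp
      exact ⟨hP p hp, by omega⟩
    · intro p hp _
      rw [mem_Ioc] at hp
      have : (1 : ℝ) ≤ p := by exact_mod_cast (by omega : 1 ≤ p)
      exact div_nonneg zero_le_one (mul_nonneg (by linarith) (by linarith))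
  have h2 : ∀ M : ℕ, ∑ p ∈ Ioc w (w + M), 1 / ((p : ℝ) * (p - 1)) = 1 / w - 1 / ((w + M : ℕ) : ℝ) := by
    intro M
    induction M with
    | zero => simp
    | succ M ih =>
      rw [← add_assoc, sum_Ioc_succ_top (by omega), ih]
      have h3 : (0 : ℝ) < w := by exact_mod_cast hw
      have h4 : (0 : ℝ) < (w : ℝ) + M := by positivity
      push_cast
      rw [show (w : ℝ) + M + 1 - 1 = w + M by ring]
      field_simp
      ring
  rw [h2] at h1
  have : (0 : ℝ) ≤ 1 / ((w + N : ℕ) : ℝ) := by positivity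
  linarith

theorem t_F1 (h1 : S_BR2) : S_F1 := by
  obtain ⟨T1, hT1⟩ := h1
  refine ⟨5, fun w hw => ⟨max T1 ⌈Real.exp (2 * w)⌉₊, fun T hT y => ?_⟩⟩
  have hTT1 : T1 ≤ T := (le_max_left _ _).trans hT
  have hTe : Real.exp (2 * w) ≤ T :=
    (Nat.le_ceil _).trans (by exact_mod_cast (le_max_right _ _).trans hT)
  have hwR : (5 : ℝ) ≤ w := by exact_mod_cast hw
  have hTpos : (0 : ℝ) < T := lt_of_lt_of_le (Real.exp_pos _) hTe
  have hlog : 2 * (w : ℝ) ≤ Real.log T := (Real.le_log_iff_exp_le hTpos).mpr hTe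
  set P : Finset ℕ := (pr y).filter (fun p : ℕ => w < p ∧ (p : ℝ) ≤ z1 T) with hPdef
  have hP : ∀ p ∈ P, p.Prime ∧ w < p ∧ (p : ℝ) ≤ z1 T := by
    intro p hp
    rw [hPdef, mem_filter, pr, mem_filter] at hp
    exact ⟨hp.1.2, hp.2⟩
  have hP1 : ∀ p ∈ P, p.Prime ∧ (p : ℝ) ≤ z1 T := fun p hp => ⟨(hP p hp).1, (hP p hp).2.2⟩
  have hp5 : ∀ p ∈ P, (5 : ℝ) ≤ p := by
    intro p hp
    have := (hP p hp).2.1
    exact_mod_cast (by omega : 5 ≤ p)
  -- first moment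
  have hA := hT1 T hTT1 P hP1 (fun p n => -((leg n p : ℝ) / ((p : ℝ) - 1)))
    (fun p _ n => by rw [leg_add]) (by
      intro p hp n
      have : Fact p.Prime := ⟨(hP p hp).1⟩
      have h5 := hp5 p hp
      rw [abs_neg, abs_div, abs_of_pos (by linarith : (0 : ℝ) < (p : ℝ) - 1)]
      rw [div_le_div_iff₀ (by linarith) (by linarith)]
      have := leg_abs n p
      nlinarith)
  have hmean : ∏ p ∈ P, (1 + (∑ n ∈ range p, -((leg n p : ℝ) / ((p : ℝ) - 1))) / p) = 1 := by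
    refine prod_eq_one fun p hp => ?_
    have : Fact p.Prime := ⟨(hP p hp).1⟩
    have h5 : p ≠ 2 := by have := (hP p hp).2.1; omega
    have h6 : ∑ n ∈ range p, (leg n p : ℝ) = 0 := by exact_mod_cast sum_leg p h5
    rw [sum_neg_distrib, ← sum_div, h6]
    simp
  rw [hmean, mul_one] at hA
  -- second moment
  have hB := hT1 T hTT1 P hP1 (fun p n => -2 * ((leg n p : ℝ) / ((p : ℝ) - 1)) +
      ((leg n p : ℝ) / ((p : ℝ) - 1)) ^ 2)
    (fun p _ n => by rw [leg_add]) (by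
      intro p hp n
      have : Fact p.Prime := ⟨(hP p hp).1⟩
      have h5 := hp5 p hp
      have h6 : (0 : ℝ) < (p : ℝ) - 1 := by linarith
      have h7 : |(leg n p : ℝ) / ((p : ℝ) - 1)| ≤ 1 / ((p : ℝ) - 1) := by
        rw [abs_div, abs_of_pos h6]
        exact div_le_div_of_nonneg_right (leg_abs n p) h6.le
      set u : ℝ := (leg n p : ℝ) / ((p : ℝ) - 1) with hu
      have h8 : |-2 * u + u ^ 2| ≤ 2 * |u| + |u| ^ 2 := by
        refine (abs_add_le _ _).trans (le_of_eq ?_)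
        rw [abs_mul, abs_pow]
        norm_num
      have h9 : 2 * |u| + |u| ^ 2 ≤ 2 * (1 / ((p : ℝ) - 1)) + (1 / ((p : ℝ) - 1)) ^ 2 := by
        have := pow_le_pow_left₀ (abs_nonneg u) h7 2
        linarith
      refine h8.trans (h9.trans ?_)
      have h10 : 2 * (1 / ((p : ℝ) - 1)) + (1 / ((p : ℝ) - 1)) ^ 2 = (2 * p - 1) / ((p : ℝ) - 1) ^ 2 := by
        field_simp
        ring
      rw [h10, div_le_div_iff₀ (by positivity) (by linarith)]
      nlinarith)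
  have hprod : ∏ p ∈ P, (1 + (∑ n ∈ range p, (-2 * ((leg n p : ℝ) / ((p : ℝ) - 1)) +
      ((leg n p : ℝ) / ((p : ℝ) - 1)) ^ 2)) / (p : ℝ)) ≤ 1 + 2 / (w : ℝ) := by
    have h3 : ∀ p ∈ P, (1 + (∑ n ∈ range p, (-2 * ((leg n p : ℝ) / ((p : ℝ) - 1)) +
        ((leg n p : ℝ) / ((p : ℝ) - 1)) ^ 2)) / (p : ℝ)) = 1 + 1 / ((p : ℝ) * (p - 1)) := by
      intro p hp
      have : Fact p.Prime := ⟨(hP p hp).1⟩
      have h5 : p ≠ 2 := by have := (hP p hp).2.1; omega
      have h5' := hp5 p hp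
      have h6 : ∑ n ∈ range p, (leg n p : ℝ) = 0 := by exact_mod_cast sum_leg p h5
      have h7 : ∑ n ∈ range p, (leg n p : ℝ) ^ 2 = (p : ℝ) - 1 := by exact_mod_cast sum_leg_sq p
      have h8 : ∑ n ∈ range p, (-2 * ((leg n p : ℝ) / ((p : ℝ) - 1)) +
          ((leg n p : ℝ) / ((p : ℝ) - 1)) ^ 2) = 1 / ((p : ℝ) - 1) := by
        rw [sum_add_distrib, ← mul_sum, ← sum_div, h6]
        simp only [div_pow]
        rw [← sum_div, h7]
        have h9 : (p : ℝ) - 1 ≠ 0 := by linarith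
        field_simp
        ring
      rw [h8]
      have h9 : (p : ℝ) - 1 ≠ 0 := by linarith
      have h10 : (p : ℝ) ≠ 0 := by linarith
      field_simp
    rw [prod_congr rfl h3]
    have h4 : ∏ p ∈ P, (1 + 1 / ((p : ℝ) * (p - 1))) ≤ Real.exp (1 / w) := by
      refine (prod_le_prod (g := fun p : ℕ => Real.exp (1 / ((p : ℝ) * (p - 1)))) ?_ ?_).trans ?_
      · intro p hp
        have := hp5 p hp
        have : (0 : ℝ) ≤ 1 / ((p : ℝ) * (p - 1)) :=
          div_nonneg zero_le_one (mul_nonneg (by linarith) (by linarith))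
        linarith
      · intro p _
        have := Real.add_one_le_exp (1 / ((p : ℝ) * (p - 1)))
        linarith
      · rw [← Real.exp_sum]
        exact Real.exp_le_exp.mpr (tele w (by omega) P fun p hp => (hP p hp).2.1)
    have h5 : Real.exp (1 / w) ≤ 1 + 2 / w := by
      have hx0 : (0 : ℝ) ≤ 1 / w := by positivity
      have hx1 : (1 : ℝ) / w ≤ 1 / 5 := one_div_le_one_div_of_le (by norm_num) hwR
      have h6 := Real.exp_bound_div_one_sub_of_interval hx0 (by linarith)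
      refine h6.trans ?_
      rw [show (2 : ℝ) / w = 2 * (1 / w) by ring, div_le_iff₀ (by linarith)]
      nlinarith
    exact h4.trans h5
  -- conclusion
  have e1 : ∀ h : ℕ, ∏ p ∈ P, (1 + -((leg h p : ℝ) / ((p : ℝ) - 1))) =
      ∏ p ∈ P, (1 - (leg h p : ℝ) / ((p : ℝ) - 1)) := fun h =>
    prod_congr rfl fun p _ => by ring
  have e2 : ∀ h : ℕ, ∏ p ∈ P, (1 + (-2 * ((leg h p : ℝ) / ((p : ℝ) - 1)) +
      ((leg h p : ℝ) / ((p : ℝ) - 1)) ^ 2)) =
      (∏ p ∈ P, (1 - (leg h p : ℝ) / ((p : ℝ) - 1))) ^ 2 := fun h => by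
    rw [← prod_pow]
    exact prod_congr rfl fun p _ => by ring
  rw [sum_congr rfl fun h _ => e1 h] at hA
  rw [sum_congr rfl fun h _ => e2 h] at hB
  have hA' := (abs_le.mp hA).1
  have hB' := (abs_le.mp hB).2
  have hB'' := mul_le_mul_of_nonneg_left hprod hTpos.le
  have e3 : ∑ h ∈ Icc 1 T, ((∏ p ∈ P, (1 - (leg h p : ℝ) / ((p : ℝ) - 1))) - 1) ^ 2 =
      ∑ h ∈ Icc 1 T, (∏ p ∈ P, (1 - (leg h p : ℝ) / ((p : ℝ) - 1))) ^ 2 -
      2 * ∑ h ∈ Icc 1 T, ∏ p ∈ P, (1 - (leg h p : ℝ) / ((p : ℝ) - 1)) + T := by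
    have h3 : ∀ h ∈ Icc 1 T, ((∏ p ∈ P, (1 - (leg h p : ℝ) / ((p : ℝ) - 1))) - 1) ^ 2 =
        (∏ p ∈ P, (1 - (leg h p : ℝ) / ((p : ℝ) - 1))) ^ 2 -
        2 * (∏ p ∈ P, (1 - (leg h p : ℝ) / ((p : ℝ) - 1))) + 1 := fun h _ => by ring
    rw [sum_congr rfl h3, sum_add_distrib, sum_sub_distrib, ← mul_sum]
    simp
  rw [e3]
  have h7 : (T : ℝ) / Real.log T ≤ T / (2 * w) :=
    div_le_div_of_nonneg_left hTpos.le (by positivity) hlog
  have h8 : (T : ℝ) / (2 * w) = (T / w) / 2 := by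
    field_simp
  have h9 : (0 : ℝ) ≤ T / w := by positivity
  have h10 : 4 * (T : ℝ) / w = 4 * (T / w) := by ring
  have h11 : (T : ℝ) * (1 + 2 / w) = T + 2 * (T / w) := by ring
  rw [h10]
  linarith

end Pool.Agent.Y286.SQ
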