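import Mathlib
import Pool.Agent.Y862.SQ.Stm2
import Pool.Agent.Y286.SQ.F1

/-!
# SQ2-F1: second moment of the singular factor over the small primes, both signs
-/

set_option autoImplicit false

namespace Pool.Agent.Y286.SQ

open Finset Pool.Agent.Y862.SQ

theorem lez_eq (s : ℤ) (p : ℕ) [Fact p.Prime] :
    lez s p = quadraticChar (ZMod p) (-(s : ZMod p)) := by
  unfold lez
  rw [← jacobiSym.legendreSym.to_jacobiSym, legendreSym]
  push_cast
  rfl

theorem sum_lez (p : ℕ) [hp : Fact p.Prime] (h2 : p ≠ 2) (c : ℤ) :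
    ∑ n ∈ range p, lez ((n : ℤ) - c) p = 0 := by
  have h1 : ∑ n ∈ range p, lez ((n : ℤ) - c) p =
      ∑ n ∈ range p, (fun x : ZMod p => quadraticChar (ZMod p) ((c : ZMod p) - x)) n :=
    sum_congr rfl fun n _ => by
      rw [lez_eq]
      push_cast
      rw [neg_sub]
  have h4 : ∑ x : ZMod p, quadraticChar (ZMod p) ((c : ZMod p) - x) =
      ∑ x : ZMod p, quadraticChar (ZMod p) x :=
    Equiv.sum_comp (Equiv.subLeft (c : ZMod p)) (fun x => quadraticChar (ZMod p) x)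
  rw [h1, sum_range_zmod p (fun x : ZMod p => quadraticChar (ZMod p) ((c : ZMod p) - x)), h4]
  exact quadraticChar_sum_zero (by rw [ZMod.ringChar_zmod_n]; exact h2)

theorem sum_lez_sq (p : ℕ) [hp : Fact p.Prime] (c : ℤ) :
    ∑ n ∈ range p, lez ((n : ℤ) - c) p ^ 2 = (p : ℤ) - 1 := by
  have h1 : ∑ n ∈ range p, lez ((n : ℤ) - c) p ^ 2 =
      ∑ n ∈ range p, (fun x : ZMod p => quadraticChar (ZMod p) ((c : ZMod p) - x) ^ 2) n :=
    sum_congr rfl fun n _ => by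
      rw [lez_eq]
      push_cast
      rw [neg_sub]
  have h4 : ∑ x : ZMod p, quadraticChar (ZMod p) ((c : ZMod p) - x) ^ 2 =
      ∑ x : ZMod p, quadraticChar (ZMod p) x ^ 2 :=
    Equiv.sum_comp (Equiv.subLeft (c : ZMod p)) (fun x => quadraticChar (ZMod p) x ^ 2)
  rw [h1, sum_range_zmod p (fun x : ZMod p => quadraticChar (ZMod p) ((c : ZMod p) - x) ^ 2), h4,
    ← add_sum_erase univ _ (mem_univ (0 : ZMod p))]
  have h3 : ∀ x ∈ univ.erase (0 : ZMod p), quadraticChar (ZMod p) x ^ 2 = 1 := by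
    intro x hx
    exact quadraticChar_sq_one (ne_of_mem_erase hx)
  rw [sum_congr rfl h3, sum_const, card_erase_of_mem (mem_univ _), card_univ, ZMod.card,
    MulChar.map_zero]
  have := hp.out.one_lt
  rw [nsmul_eq_mul, Nat.cast_sub this.le]
  simp

theorem lez_abs (s : ℤ) (p : ℕ) [Fact p.Prime] : |(lez s p : ℝ)| ≤ 1 := by
  have h : |lez s p| ≤ 1 := by
    rw [lez_eq]
    by_cases hx : (-(s : ZMod p)) = 0
    · rw [hx, MulChar.map_zero]; norm_num
    · rcases quadraticChar_dichotomy hx with h | h <;> rw [h] <;> norm_num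
  exact_mod_cast h

theorem lez_add (n p : ℕ) (c : ℤ) : lez (((n + p : ℕ) : ℤ) - c) p = lez ((n : ℤ) - c) p := by
  unfold lez
  rw [jacobiSym.mod_left, jacobiSym.mod_left (-((n : ℤ) - c))]
  congr 1
  push_cast
  rw [show -((n : ℤ) + p - c) = -((n : ℤ) - c) + p * (-1) by ring, Int.add_mul_emod_self_left]

/-- monotonicity of `z1` -/
theorem z1_mono {M T : ℕ} (hM : Real.exp 1 ≤ Real.log M) (h : M ≤ T) : z1 M ≤ z1 T := by
  have he : (1 : ℝ) < Real.exp 1 := by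
    have := Real.add_one_lt_exp (one_ne_zero (α := ℝ)); linarith
  have hx0 : 0 < Real.log M := by linarith
  have hM0 : (0 : ℝ) < M := by
    rcases Nat.eq_zero_or_pos M with h0 | h0
    · exfalso; rw [h0] at hx0; simp at hx0
    · exact_mod_cast h0
  have hx : Real.log M ≤ Real.log T := Real.log_le_log hM0 (by exact_mod_cast h)
  have h1 := Real.log_div_self_antitoneOn (show Real.log M ∈ {x | Real.exp 1 ≤ x} from hM)
    (show Real.log T ∈ {x | Real.exp 1 ≤ x} from hM.trans hx) hx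
  simp only at h1
  have hl : 0 < Real.log (Real.log M) := Real.log_pos (by linarith)
  have hl' : 0 < Real.log (Real.log T) := Real.log_pos (by linarith)
  unfold z1
  refine Real.exp_le_exp.mpr ?_
  rw [div_le_div_iff₀ (by linarith) hx0] at h1
  rw [div_le_div_iff₀ (by linarith) (by linarith)]
  linarith

theorem t_F1Z (h1 : S_BR2) : S_F1Z := by
  obtain ⟨T1, hT1⟩ := h1
  refine ⟨5, fun w hw => ⟨max T1 ⌈Real.exp (2 * w)⌉₊, fun M hM y => ?_⟩⟩
  set T : ℕ := 2 * M + 1 with hTM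
  have hMT : M ≤ T := by omega
  have hTT1 : T1 ≤ T := ((le_max_left _ _).trans hM).trans hMT
  have hMe : Real.exp (2 * w) ≤ M :=
    (Nat.le_ceil _).trans (by exact_mod_cast (le_max_right _ _).trans hM)
  have hwR : (5 : ℝ) ≤ w := by exact_mod_cast hw
  have hMpos : (0 : ℝ) < M := lt_of_lt_of_le (Real.exp_pos _) hMe
  have hlogM : 2 * (w : ℝ) ≤ Real.log M := (Real.le_log_iff_exp_le hMpos).mpr hMe
  have hM1 : (1 : ℝ) ≤ M := by
    have : 0 < M := by exact_mod_cast hMpos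
    exact_mod_cast this
  have hTR : (T : ℝ) = 2 * M + 1 := by rw [hTM]; push_cast; ring
  have hTpos : (0 : ℝ) < T := by rw [hTR]; linarith
  have hlog : 2 * (w : ℝ) ≤ Real.log T :=
    hlogM.trans (Real.log_le_log hMpos (by rw [hTR]; linarith))
  have hz : z1 M ≤ z1 T := by
    refine z1_mono ?_ hMT
    have := Real.exp_one_lt_d9
    linarith
  set c : ℤ := (M : ℤ) + 1 with hc
  set P : Finset ℕ := (pr y).filter (fun p : ℕ => w < p ∧ (p : ℝ) ≤ z1 M) with hPdef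
  have hP : ∀ p ∈ P, p.Prime ∧ w < p ∧ (p : ℝ) ≤ z1 M := by
    intro p hp
    rw [hPdef, mem_filter, pr, mem_filter] at hp
    exact ⟨hp.1.2, hp.2⟩
  have hP1 : ∀ p ∈ P, p.Prime ∧ (p : ℝ) ≤ z1 T :=
    fun p hp => ⟨(hP p hp).1, (hP p hp).2.2.trans hz⟩
  have hp5 : ∀ p ∈ P, (5 : ℝ) ≤ p := by
    intro p hp
    have := (hP p hp).2.1
    exact_mod_cast (by omega : 5 ≤ p)
  -- first moment
  have hA := hT1 T hTT1 P hP1 (fun p n => -((lez ((n : ℤ) - c) p : ℝ) / ((p : ℝ) - 1)))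
    (fun p _ n => by rw [lez_add]) (by
      intro p hp n
      have : Fact p.Prime := ⟨(hP p hp).1⟩
      have h5 := hp5 p hp
      rw [abs_neg, abs_div, abs_of_pos (by linarith : (0 : ℝ) < (p : ℝ) - 1)]
      rw [div_le_div_iff₀ (by linarith) (by linarith)]
      have := lez_abs ((n : ℤ) - c) p
      nlinarith)
  have hmean : ∏ p ∈ P, (1 + (∑ n ∈ range p, -((lez ((n : ℤ) - c) p : ℝ) / ((p : ℝ) - 1))) / p)
      = 1 := by
    refine prod_eq_one fun p hp => ?_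
    have : Fact p.Prime := ⟨(hP p hp).1⟩
    have h5 : p ≠ 2 := by have := (hP p hp).2.1; omega
    have h6 : ∑ n ∈ range p, (lez ((n : ℤ) - c) p : ℝ) = 0 := by exact_mod_cast sum_lez p h5 c
    rw [sum_neg_distrib, ← sum_div, h6]
    simp
  rw [hmean, mul_one] at hA
  -- second moment
  have hB := hT1 T hTT1 P hP1 (fun p n => -2 * ((lez ((n : ℤ) - c) p : ℝ) / ((p : ℝ) - 1)) +
      ((lez ((n : ℤ) - c) p : ℝ) / ((p : ℝ) - 1)) ^ 2)
    (fun p _ n => by rw [lez_add]) (by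
      intro p hp n
      have : Fact p.Prime := ⟨(hP p hp).1⟩
      have h5 := hp5 p hp
      have h6 : (0 : ℝ) < (p : ℝ) - 1 := by linarith
      have h7 : |(lez ((n : ℤ) - c) p : ℝ) / ((p : ℝ) - 1)| ≤ 1 / ((p : ℝ) - 1) := by
        rw [abs_div, abs_of_pos h6]
        exact div_le_div_of_nonneg_right (lez_abs _ p) h6.le
      set u : ℝ := (lez ((n : ℤ) - c) p : ℝ) / ((p : ℝ) - 1) with hu
      have h8 : |-2 * u + u ^ 2| ≤ 2 * |u| + |u| ^ 2 := by
        refine (abs_add_le _ _).trans (le_of_eq ?_)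
        rw [abs_mul, abs_pow]
        norm_num
      have h9 : 2 * |u| + |u| ^ 2 ≤ 2 * (1 / ((p : ℝ) - 1)) + (1 / ((p : ℝ) - 1)) ^ 2 := by
        have := pow_le_pow_left₀ (abs_nonneg u) h7 2
        linarith
      refine h8.trans (h9.trans ?_)
      have h10 : 2 * (1 / ((p : ℝ) - 1)) + (1 / ((p : ℝ) - 1)) ^ 2 =
          (2 * p - 1) / ((p : ℝ) - 1) ^ 2 := by
        field_simp
        ring
      rw [h10, div_le_div_iff₀ (by positivity) (by linarith)]
      nlinarith)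
  have hprod : ∏ p ∈ P, (1 + (∑ n ∈ range p, (-2 * ((lez ((n : ℤ) - c) p : ℝ) / ((p : ℝ) - 1)) +
      ((lez ((n : ℤ) - c) p : ℝ) / ((p : ℝ) - 1)) ^ 2)) / (p : ℝ)) ≤ 1 + 2 / (w : ℝ) := by
    have h3 : ∀ p ∈ P, (1 + (∑ n ∈ range p, (-2 * ((lez ((n : ℤ) - c) p : ℝ) / ((p : ℝ) - 1)) +
        ((lez ((n : ℤ) - c) p : ℝ) / ((p : ℝ) - 1)) ^ 2)) / (p : ℝ)) =
        1 + 1 / ((p : ℝ) * (p - 1)) := by
      intro p hp
      have : Fact p.Prime := ⟨(hP p hp).1⟩
      have h5 : p ≠ 2 := by have := (hP p hp).2.1; omega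
      have h5' := hp5 p hp
      have h6 : ∑ n ∈ range p, (lez ((n : ℤ) - c) p : ℝ) = 0 := by exact_mod_cast sum_lez p h5 c
      have h7 : ∑ n ∈ range p, (lez ((n : ℤ) - c) p : ℝ) ^ 2 = (p : ℝ) - 1 := by
        exact_mod_cast sum_lez_sq p c
      have h8 : ∑ n ∈ range p, (-2 * ((lez ((n : ℤ) - c) p : ℝ) / ((p : ℝ) - 1)) +
          ((lez ((n : ℤ) - c) p : ℝ) / ((p : ℝ) - 1)) ^ 2) = 1 / ((p : ℝ) - 1) := by
        rw [sum_add_distrib, ← mul_sum, ← sum_div, h6]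
        simp only [div_pow]
        rw [← sum_div, h7]
        have h9 : (p : ℝ) - 1 ≠ 0 := by linarith
        field_simp
        ring
      rw [h8]
      have h9 : (p : ℝ) - 1 ≠ 0 := by linarith
      have h10 : (p : ℝ) ≠ 0 := by linarith
      field_simp
    rw [prod_congr rfl h3]
    have h4 : ∏ p ∈ P, (1 + 1 / ((p : ℝ) * (p - 1))) ≤ Real.exp (1 / w) := by
      refine (prod_le_prod (g := fun p : ℕ => Real.exp (1 / ((p : ℝ) * (p - 1)))) ?_ ?_).trans ?_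
      · intro p hp
        have := hp5 p hp
        have : (0 : ℝ) ≤ 1 / ((p : ℝ) * (p - 1)) :=
          div_nonneg zero_le_one (mul_nonneg (by linarith) (by linarith))
        linarith
      · intro p _
        have := Real.add_one_le_exp (1 / ((p : ℝ) * (p - 1)))
        linarith
      · rw [← Real.exp_sum]
        exact Real.exp_le_exp.mpr (tele w (by omega) P fun p hp => (hP p hp).2.1)
    have h5 : Real.exp (1 / w) ≤ 1 + 2 / w := by
      have hx0 : (0 : ℝ) ≤ 1 / w := by positivity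
      have hx1 : (1 : ℝ) / w ≤ 1 / 5 := one_div_le_one_div_of_le (by norm_num) hwR
      have h6 := Real.exp_bound_div_one_sub_of_interval hx0 (by linarith)
      refine h6.trans ?_
      rw [show (2 : ℝ) / w = 2 * (1 / w) by ring, div_le_iff₀ (by linarith)]
      nlinarith
    exact h4.trans h5
  -- conclusion
  have e1 : ∀ h : ℕ, ∏ p ∈ P, (1 + -((lez ((h : ℤ) - c) p : ℝ) / ((p : ℝ) - 1))) =
      ∏ p ∈ P, (1 - (lez ((h : ℤ) - c) p : ℝ) / ((p : ℝ) - 1)) := fun h =>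
    prod_congr rfl fun p _ => by ring
  have e2 : ∀ h : ℕ, ∏ p ∈ P, (1 + (-2 * ((lez ((h : ℤ) - c) p : ℝ) / ((p : ℝ) - 1)) +
      ((lez ((h : ℤ) - c) p : ℝ) / ((p : ℝ) - 1)) ^ 2)) =
      (∏ p ∈ P, (1 - (lez ((h : ℤ) - c) p : ℝ) / ((p : ℝ) - 1))) ^ 2 := fun h => by
    rw [← prod_pow]
    exact prod_congr rfl fun p _ => by ring
  rw [sum_congr rfl fun h _ => e1 h] at hA
  rw [sum_congr rfl fun h _ => e2 h] at hB
  have hA' := (abs_le.mp hA).1
  have hB' := (abs_le.mp hB).2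
  have hB'' := mul_le_mul_of_nonneg_left hprod hTpos.le
  have e0 : ∑ s ∈ Icc (-(M : ℤ)) M, ((∏ p ∈ P, (1 - (lez s p : ℝ) / ((p : ℝ) - 1))) - 1) ^ 2 =
      ∑ h ∈ Icc 1 T, ((∏ p ∈ P, (1 - (lez ((h : ℤ) - c) p : ℝ) / ((p : ℝ) - 1))) - 1) ^ 2 := by
    refine sum_nbij' (fun s => (s + c).toNat) (fun h => (h : ℤ) - c) ?_ ?_ ?_ ?_ ?_
    · intro s hs
      rw [mem_Icc] at hs ⊢
      omega
    · intro h hh
      rw [mem_Icc] at hh ⊢
      omega
    · intro s hs
      rw [mem_Icc] at hs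
      show (((s + c).toNat : ℕ) : ℤ) - c = s
      omega
    · intro h hh
      rw [mem_Icc] at hh
      show (((h : ℤ) - c) + c).toNat = h
      omega
    · intro s hs
      rw [mem_Icc] at hs
      have : (((s + c).toNat : ℕ) : ℤ) - c = s := by omega
      rw [this]
  have e3 : ∑ h ∈ Icc 1 T, ((∏ p ∈ P, (1 - (lez ((h : ℤ) - c) p : ℝ) / ((p : ℝ) - 1))) - 1) ^ 2 =
      ∑ h ∈ Icc 1 T, (∏ p ∈ P, (1 - (lez ((h : ℤ) - c) p : ℝ) / ((p : ℝ) - 1))) ^ 2 -
      2 * ∑ h ∈ Icc 1 T, ∏ p ∈ P, (1 - (lez ((h : ℤ) - c) p : ℝ) / ((p : ℝ) - 1)) + T := by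
    have h3 : ∀ h ∈ Icc 1 T,
        ((∏ p ∈ P, (1 - (lez ((h : ℤ) - c) p : ℝ) / ((p : ℝ) - 1))) - 1) ^ 2 =
        (∏ p ∈ P, (1 - (lez ((h : ℤ) - c) p : ℝ) / ((p : ℝ) - 1))) ^ 2 -
        2 * (∏ p ∈ P, (1 - (lez ((h : ℤ) - c) p : ℝ) / ((p : ℝ) - 1))) + 1 := fun h _ => by ring
    rw [sum_congr rfl h3, sum_add_distrib, sum_sub_distrib, ← mul_sum]
    simp
  rw [e0, e3]
  have h7 : (T : ℝ) / Real.log T ≤ T / (2 * w) :=
    div_le_div_of_nonneg_left hTpos.le (by positivity) hlog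
  have h8 : (T : ℝ) / (2 * w) = (T / w) / 2 := by
    field_simp
  have h11 : (T : ℝ) * (1 + 2 / w) = T + 2 * (T / w) := by ring
  have h12 : (T : ℝ) / w ≤ 3 * (M / w) := by
    rw [← mul_div_assoc]
    refine div_le_div_of_nonneg_right ?_ (by linarith)
    rw [hTR]
    linarith
  have h10 : 12 * (M : ℝ) / w = 12 * (M / w) := by ring
  have h9 : (0 : ℝ) ≤ M / w := by positivity
  rw [h10]
  linarith

end Pool.Agent.Y286.SQ
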